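import Mathlib

set_option autoImplicit false

namespace Pool.Agent.Results.MP_f95752_co.Counter

/-- Every subgraph with at least one vertex has a vertex of degree at most `d`. -/
def IsDegen {V : Type} (G : SimpleGraph V) (d : ℕ) : Prop :=
  ∀ H : G.Subgraph, H.verts.Nonempty → ∃ v ∈ H.verts, (H.neighborSet v).ncard ≤ d

/-- The least `d` such that `G` is `d`-degenerate. -/
noncomputable def degeneracy {V : Type} (G : SimpleGraph V) : ℕ := sInf {d | IsDegen G d}

/-- The largest order of an induced `d`-degenerate subgraph. -/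
noncomputable def alphaG {V : Type} (G : SimpleGraph V) (d : ℕ) : ℕ :=
  sSup {m | ∃ S : Set V, S.ncard = m ∧ IsDegen (G.induce S) d}

/-- The infimum of `alphaG G d / n` over graphs of degeneracy exactly `k`. -/
noncomputable def alphaK (d k : ℕ) : ℝ :=
  sInf {x : ℝ | ∃ (n : ℕ) (G : SimpleGraph (Fin n)), 0 < n ∧ degeneracy G = k ∧
    x = (alphaG G d : ℝ) / n}

theorem of_degen {V : Type} [DecidableEq V] (G : SimpleGraph V) [DecidableRel G.Adj] (d : ℕ)
    (h : IsDegen G d) (T : Finset V) (hT : T.Nonempty) :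
    ∃ v ∈ T, (T.filter (G.Adj v)).card ≤ d := by
  obtain ⟨v, hv, hd⟩ := h ((⊤ : G.Subgraph).induce (T : Set V)) (by simpa using hT)
  have hv' : v ∈ T := by simpa using hv
  refine ⟨v, hv', ?_⟩
  have : ((⊤ : G.Subgraph).induce (T : Set V)).neighborSet v = ↑(T.filter (G.Adj v)) := by
    ext w
    simp [hv']
  rwa [this, Set.ncard_coe_finset] at hd

theorem of_degen_induce {V : Type} [DecidableEq V] (G : SimpleGraph V) [DecidableRel G.Adj]
    (d : ℕ) (S : Set V) (h : IsDegen (G.induce S) d) (T : Finset V) (hT : T.Nonempty)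
    (hTS : ∀ v ∈ T, v ∈ S) : ∃ v ∈ T, (T.filter (G.Adj v)).card ≤ d := by
  obtain ⟨a, ha⟩ := hT
  obtain ⟨v, hv, hd⟩ := h ((⊤ : (G.induce S).Subgraph).induce {x | x.1 ∈ T})
    ⟨⟨a, hTS a ha⟩, by simpa using ha⟩
  have hv' : v.1 ∈ T := by simpa using hv
  refine ⟨v.1, hv', ?_⟩
  have : Subtype.val '' (((⊤ : (G.induce S).Subgraph).induce {x | x.1 ∈ T}).neighborSet v)
      = ↑(T.filter (G.Adj v.1)) := by
    ext w
    simp only [Set.mem_image, SimpleGraph.Subgraph.mem_neighborSet,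
      SimpleGraph.Subgraph.induce_adj, Set.mem_setOf_eq, SimpleGraph.Subgraph.top_adj,
      SimpleGraph.induce_adj, Finset.coe_filter]
    constructor
    · rintro ⟨x, ⟨_, hx, hadj⟩, rfl⟩
      exact ⟨hx, hadj⟩
    · rintro ⟨hw, hadj⟩
      exact ⟨⟨w, hTS w hw⟩, ⟨hv', hw, hadj⟩, rfl⟩
  rw [← Set.ncard_coe_finset, ← this, Set.ncard_image_of_injective _ Subtype.val_injective]
  exact hd

theorem degen_of {V : Type} [Fintype V] [DecidableEq V] (G : SimpleGraph V)
    [DecidableRel G.Adj] (d : ℕ)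
    (h : ∀ T : Finset V, T.Nonempty → ∃ v ∈ T, (T.filter (G.Adj v)).card ≤ d) : IsDegen G d := by
  classical
  intro H hH
  obtain ⟨v, hv, hd⟩ := h H.verts.toFinset (by simpa using hH)
  refine ⟨v, by simpa using hv, le_trans ?_ hd⟩
  rw [← Set.ncard_coe_finset]
  refine Set.ncard_le_ncard ?_ (Finset.finite_toSet _)
  intro w hw
  simp only [Finset.coe_filter, Set.mem_toFinset, Set.mem_setOf_eq]
  exact ⟨H.edge_vert (H.symm.1 _ _ hw), H.adj_sub hw⟩

def E : List (ℕ × ℕ) :=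
  [(0, 3), (1, 3), (2, 3), (0, 4), (1, 4), (2, 4), (1, 5), (2, 5), (3, 5), (4, 5), (0, 6), (2, 6),
   (3, 6), (4, 6), (5, 6)]

def G : SimpleGraph (Fin 7) where
  Adj u v := (u.1, v.1) ∈ E ∨ (v.1, u.1) ∈ E
  symm := ⟨fun _ _ h => h.symm⟩
  loopless := ⟨by decide⟩

instance : DecidableRel G.Adj := fun u v =>
  inferInstanceAs (Decidable ((u.1, v.1) ∈ E ∨ (v.1, u.1) ∈ E))

theorem degG : degeneracy G = 3 := by
  have h3 : IsDegen G 3 := degen_of G 3 (by decide +kernel)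
  refine le_antisymm (Nat.sInf_le h3) ?_
  have hm : IsDegen G (degeneracy G) := Nat.sInf_mem (s := {d | IsDegen G d}) ⟨3, h3⟩
  obtain ⟨v, _, hv⟩ := of_degen G _ hm Finset.univ Finset.univ_nonempty
  have : ∀ v : Fin 7, 3 ≤ (Finset.univ.filter (G.Adj v)).card := by decide +kernel
  exact le_trans (this v) hv

theorem key : ∀ S : Finset (Fin 7), 6 ≤ S.card → ∃ T : Finset (Fin 7), T ⊆ S ∧ T.Nonempty ∧
    ∀ v ∈ T, 3 ≤ (T.filter (G.Adj v)).card := by
  decide +kernel

theorem alphaG_le : alphaG G 2 ≤ 5 := by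
  classical
  refine csSup_le' ?_
  rintro m ⟨S, rfl, hS⟩
  by_contra hlt
  have hc : 6 ≤ S.toFinset.card := by
    rw [← Set.ncard_eq_toFinset_card' S]; omega
  obtain ⟨T, hTS, hT, hdeg⟩ := key S.toFinset hc
  obtain ⟨v, hv, hd⟩ := of_degen_induce G 2 S hS T hT (fun v hv => by simpa using hTS hv)
  have := hdeg v hv
  omega

theorem result :
    ¬ ∀ k d : ℕ, 3 ≤ k → d < k → alphaK d k = ((d : ℝ) + 1) / ((k : ℝ) + 1) := by
  intro h
  have h1 := h 3 2 le_rfl (by norm_num)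
  have h2 : alphaK 2 3 ≤ (alphaG G 2 : ℝ) / (7 : ℕ) := by
    refine csInf_le ⟨0, ?_⟩ ⟨7, G, by norm_num, degG, rfl⟩
    rintro x ⟨n, H, _, _, rfl⟩
    positivity
  have h3 : (alphaG G 2 : ℝ) ≤ 5 := by exact_mod_cast alphaG_le
  rw [h1] at h2
  push_cast at h2
  linarith

end Pool.Agent.Results.MP_f95752_co.Counter
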